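import Pool.Agent.R967.DB.Prob

/-!
# Every disagreement bound is at least `2x/(1+x)`

A function `f : [0,1] → [0,1]` is a disagreement bound if every finite collection of real random
variables has a coupling in which every two members satisfy `P (X ≠ Y) ≤ f (d_TV (X, Y))`. The result:
`f x ≥ 2x/(1+x)` for every disagreement bound `f` and every `x ∈ [0,1]`; so the disagreement bound
`2x/(1+x)` is pointwise optimal.

Proof (`Pool.Agent.R967.DB`): for `x ∈ (0,1]` and a large `M` let `k = ⌊M/x⌋`, and let the law `μ_S`,
for `S ⊆ {0,…,v-1}` with `k` elements, give mass `x/M` to the elements of `S` and the rest to `-1`. Two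
sets with exactly `i = k - M` common elements are at total variation distance exactly `x`. A coupling
is, up to small probabilities, a random choice function `c(S) ∈ S`. For every choice function, the
proportion of the pairs `(S, S')` with `i` common elements and `c(S) = c(S')` is at most
`i/(2k-i) + o(1)` as `v → ∞` and then `M → ∞`: let `b_i` be the mean of the squares of the conditional
probabilities `P(c(S) = p | I ⊆ S)`, `|I| = i`, `p ∈ I`. Then `b_i ≤ b_{i+1}`, and a rearrangement
inequality for the new element (the probability that the choice is in a set `A` of new elements is at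
most the probability that `A` is met) bounds `2 (k-i) b_{i+1}` by `1 - i b_i` up to a small error.
-/

set_option autoImplicit false

namespace Pool.Agent.Results.MP_fe4852_pr.PointwiseOptimal

open MeasureTheory

/-- The total variation distance of two laws on the real line: the supremum over the measurable sets
`A` of `|μ A - ν A|`. -/
noncomputable def tvDist (μ ν : Measure ℝ) : ℝ :=
  sSup {r : ℝ | ∃ A : Set ℝ, MeasurableSet A ∧ r = |μ.real A - ν.real A|}

/-- `f` maps `[0,1]` to `[0,1]`, and every finite collection of real random variables (with laws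
`μ i`) has a coupling (random variables `X i` with laws `μ i` on one probability space) in which every
two members satisfy `P (X i ≠ X j) ≤ f (tvDist (μ i) (μ j))`. -/
def IsDisagreementBound (f : ℝ → ℝ) : Prop :=
  (∀ x : ℝ, 0 ≤ x → x ≤ 1 → 0 ≤ f x ∧ f x ≤ 1) ∧
  ∀ (n : ℕ) (μ : Fin n → Measure ℝ), (∀ i, IsProbabilityMeasure (μ i)) →
    ∃ (Ω : Type) (_ : MeasurableSpace Ω) (P : Measure Ω) (X : Fin n → Ω → ℝ),
      IsProbabilityMeasure P ∧ (∀ i, Measurable (X i) ∧ P.map (X i) = μ i) ∧
      ∀ i j, i ≠ j → P.real {ω | X i ω ≠ X j ω} ≤ f (tvDist (μ i) (μ j))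

/-- Every disagreement bound is at least `2x/(1+x)` at every `x ∈ [0,1]`. -/
theorem result (f : ℝ → ℝ) (hf : IsDisagreementBound f) (x : ℝ) (hx0 : 0 ≤ x) (hx1 : x ≤ 1) :
    2 * x / (1 + x) ≤ f x :=
  Pool.Agent.R967.DB.main hf hx0 hx1

end Pool.Agent.Results.MP_fe4852_pr.PointwiseOptimal
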